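import Mathlib
import Pool.Agent.Y734.BR.Main
import Pool.Agent.Y734.Stms3

/-!
# Job BR2: the data attached to a quadratic point, without genericity
-/

set_option autoImplicit false

namespace Pool.Agent.Y734.BR2

open NumberField IsDedekindDomain MvPolynomial
open Pool.Agent.Y734 Pool.Agent.Y734.B Pool.Agent.Y734.BR

theorem quad_le {A B k₁ k₂ : ℝ} (hA : 0 ≤ A) (hB : 0 ≤ B) (h1 : 0 ≤ k₁) (h2 : 0 ≤ k₂)
    (h : A ^ 2 ≤ k₁ * (A * B) + k₂ * B ^ 2) : A ≤ (1 + k₁ + k₂) * B := by
  by_contra hcon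
  push Not at hcon
  have hBA : B ≤ A := by nlinarith [mul_nonneg h1 hB, mul_nonneg h2 hB]
  have h3 : k₂ * B ^ 2 ≤ k₂ * (A * B) := by
    apply mul_le_mul_of_nonneg_left _ h2
    nlinarith
  have hA0 : 0 < A := by nlinarith [mul_nonneg h1 hB, mul_nonneg h2 hB]
  have h4 : A * A ≤ A * ((k₁ + k₂) * B) := by nlinarith
  have h5 := le_of_mul_le_mul_left h4 hA0
  nlinarith

section

variable {L : Type} [Field L] [NumberField L]

theorem lf_ev (φ : L →+* ℂ) (x : Fin 3 → L) (G : Fin 3 → ℚ) :
    lf (fun j => φ (x j)) G = φ (ev G x) := by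
  unfold lf ev
  rw [map_sum]
  refine Finset.sum_congr rfl fun i _ => ?_
  rw [map_mul, eq_ratCast, eq_ratCast, map_ratCast]

theorem nrm_quad (a : AbsoluteValue L ℝ) {x : Fin 3 → L} (hx : x ≠ 0) (φ : L →+* ℂ)
    {G G' : Fin 3 → ℚ} {κ₁ κ₂ : ℚ}
    (h : lf (fun j => φ (x j)) G ^ 2 + algebraMap ℚ ℂ κ₁ *
      (lf (fun j => φ (x j)) G * lf (fun j => φ (x j)) G') +
      algebraMap ℚ ℂ κ₂ * lf (fun j => φ (x j)) G' ^ 2 = 0) :
    nrm a x G ≤ (1 + a (algebraMap ℚ L κ₁) + a (algebraMap ℚ L κ₂)) * nrm a x G' := by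
  have hA : 0 < ⨆ j, a (x j) := sup_pos a hx
  have h1 : ev G x ^ 2 + algebraMap ℚ L κ₁ * (ev G x * ev G' x) +
      algebraMap ℚ L κ₂ * ev G' x ^ 2 = 0 := by
    have h2 : φ (ev G x ^ 2 + algebraMap ℚ L κ₁ * (ev G x * ev G' x) +
      algebraMap ℚ L κ₂ * ev G' x ^ 2) = 0 := by
      rw [← h, lf_ev, lf_ev]
      simp only [map_add, map_mul, map_pow, eq_ratCast, map_ratCast]
    exact (map_eq_zero φ).1 h2
  have h3 : ev G x ^ 2 = -(algebraMap ℚ L κ₁ * (ev G x * ev G' x) +
      algebraMap ℚ L κ₂ * ev G' x ^ 2) := by linear_combination h1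
  have h4 : a (ev G x) ^ 2 ≤ a (algebraMap ℚ L κ₁) * (a (ev G x) * a (ev G' x)) +
      a (algebraMap ℚ L κ₂) * a (ev G' x) ^ 2 := by
    rw [← map_pow, h3, a.map_neg]
    refine (a.add_le _ _).trans (le_of_eq ?_)
    simp only [map_mul, map_pow]
  have h5 := quad_le (a.nonneg _) (a.nonneg _) (a.nonneg _) (a.nonneg _) h4
  unfold nrm
  rw [← mul_div_assoc]
  exact div_le_div_of_nonneg_right h5 hA.le

end

/-- **Job BR2.** -/
theorem br2 : BrStmt2 := by
  intro S hS q H
  refine ⟨17, ?_⟩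
  intro L _ _ hL x hx hH
  obtain ⟨σ, hσ⟩ := exists_cj hL
  obtain ⟨φ⟩ : Nonempty (L →+* ℂ) := inferInstance
  have hμ' := fun p : S => exists_loc hσ (hS p p.2)
  choose μ hμ1 hμ2 hμ3 using hμ'
  set y : Fin 3 → L := fun j => σ (x j) with hy
  have hy0 : y ≠ 0 := conj_ne σ hx
  -- the tensor
  have hfix : ∀ i j, σ (x i * y j + x j * y i) = x i * y j + x j * y i := by
    intro i j
    simp only [hy]
    rw [map_add, map_mul, map_mul, hσ.invol, hσ.invol]
    ring
  choose m0 hm0 using fun a : Fin 3 × Fin 3 => hσ.rat (hfix a.1 a.2)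
  have hm0ne : m0 ≠ 0 := by
    obtain ⟨i, hi⟩ := Function.ne_iff.1 hx
    intro h0
    have h1 := hm0 (i, i)
    rw [h0] at h1
    have h2 : (2 : L) * (x i * σ (x i)) = 0 := by
      have h3 : algebraMap ℚ L ((0 : Fin 3 × Fin 3 → ℚ) (i, i)) = 0 := map_zero _
      rw [h3] at h1
      rw [two_mul]
      exact h1.symm
    have h4 : σ (x i) ≠ 0 := fun h => hi (by simpa using h)
    exact (mul_ne_zero two_ne_zero (mul_ne_zero hi h4)) h2
  obtain ⟨c, M, hc, hM, b, hb⟩ := exists_prim m0 hm0ne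
  have hML : ∀ i j, (M (i, j) : L) = algebraMap ℚ L c * (x i * y j + x j * y i) := by
    intro i j
    have h1 := congrArg (algebraMap ℚ L) (hM (i, j))
    rw [map_intCast, map_mul, hm0 (i, j)] at h1
    exact h1
  have hcL : algebraMap ℚ L c ≠ 0 := by
    rw [Ne, map_eq_zero]
    exact hc
  -- the height
  have hsup1 : (1 : ℝ) ≤ ⨆ a, |(M a : ℝ)| := by
    have : ∃ a, M a ≠ 0 := by
      by_contra h
      push Not at h
      rw [Finset.sum_eq_zero (fun i _ => by rw [h i, zero_mul])] at hb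
      exact zero_ne_one hb
    obtain ⟨a, ha⟩ := this
    refine le_trans ?_ (Finite.le_ciSup_of_le (f := fun a => |(M a : ℝ)|) a le_rfl)
    exact_mod_cast Int.one_le_abs ha
  have hexp : Real.exp (Real.log (⨆ a, |(M a : ℝ)|)) = ⨆ a, |(M a : ℝ)| :=
    Real.exp_log (by linarith)
  have hMle : ∀ a, |(M a : ℝ)| ≤ Real.exp (Real.log (⨆ a, |(M a : ℝ)|)) := by
    intro a
    rw [hexp]
    exact Finite.le_ciSup_of_le (f := fun a => |(M a : ℝ)|) a le_rfl
  have hn : (0 : ℝ) < Module.finrank ℚ L := by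
    exact_mod_cast Module.finrank_pos (R := ℚ) (M := L)
  have hheight : Real.log (⨆ a, |(M a : ℝ)|) ≤ 2 * height (n := 2) x + 17 := by
    have h1 := height_int (L := L) M b hb
    have h2 : (fun a => (M a : L)) = algebraMap ℚ L c •
        (fun a : Fin 3 × Fin 3 => x a.1 * σ (x a.2) + x a.2 * σ (x a.1)) := by
      funext a
      exact hML a.1 a.2
    rw [h2, Height.logHeight_smul_eq_logHeight _ hcL] at h1
    have h3 := h1.trans (logHeight_sym σ hx)
    unfold height
    have h4 : Real.log (⨆ a, |(M a : ℝ)|) ≤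
        ((Module.finrank ℚ L : ℝ) * 17 + 2 * Height.logHeight x) / Module.finrank ℚ L := by
      rw [le_div_iff₀ hn, mul_comm]
      exact h3
    refine h4.trans (le_of_eq ?_)
    field_simp
    ring
  -- absolute values
  have hev : ∀ i, ev (H i) x ≠ 0 := by
    intro i hi
    apply hH
    rw [map_prod]
    exact Finset.prod_eq_zero (Finset.mem_univ i) (by rw [ev_lin]; exact hi)
  have hev' : ∀ i, ev (H i) y ≠ 0 := by
    intro i hi
    apply hev i
    rw [hy, ev_conj] at hi
    simpa using hi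
  let a : Option S → AbsoluteValue L ℝ := av φ μ
  have ha : ∀ (v : Option S) (r : ℚ), a v (algebraMap ℚ L r) =
      absQ (v.map (fun p => (p : ℕ))) r := by
    intro v r
    cases v with
    | none => exact cabs_rat φ r
    | some p => exact hμ1 p r
  refine ⟨{ z := fun j => φ (x j)
            z' := fun j => φ (y j)
            c := (c : ℂ)
            M := fun i j => M (i, j)
            N := fun v => nrm (a v) x
            N' := fun v => nrm (a v) y
            h := Real.log (⨆ a, |(M a : ℝ)|)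
            c_ne := by exact_mod_cast hc
            M_eq := ?_
            M_le := fun i j => hMle (i, j)
            h_nonneg := Real.log_nonneg hsup1
            semi := fun v => semi_nrm (a v) _ (ha v) hx
            semi' := fun v => semi_nrm (a v) _ (ha v) hy0
            pair_none := ?_
            pair_some := ?_
            conj := ?_
            null := ?_
            null' := ?_
            quad := ?_
            quad' := ?_ }, ?_, hheight, ?_, ?_⟩
  · intro i j
    have h1 := congrArg φ (hML i j)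
    rw [map_intCast, map_mul, map_add, map_mul, map_mul, eq_ratCast, map_ratCast] at h1
    exact h1
  · intro G H'
    have h2 : (1 / 2 : ℝ) ≤ cabs φ 2 := by
      have : cabs φ (2 : L) = 2 := by
        rw [cabs_apply, map_ofNat]
        simp
      rw [this]
      norm_num
    have h3 := pair_le (cabs φ) h2 hx hy0 (c := c) (M := fun i j => M (i, j)) hML
      (K := Real.exp (Real.log (⨆ a, |(M a : ℝ)|))) (fun i j => by
        rw [cabs_int]
        exact hMle (i, j)) G H'
    rw [cabs_rat] at h3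
    exact h3
  · intro p G H'
    have h2 : (1 / 2 : ℝ) ≤ μ p 2 := by
      have h4 := hμ1 p 2
      rw [map_ofNat] at h4
      rw [h4]
      exact two_le (hS p p.2)
    have hfact : Fact (p : ℕ).Prime := ⟨hS p p.2⟩
    have h3 := pair_le (μ p) h2 hx hy0 (c := c) (M := fun i j => M (i, j)) hML
      (K := 1) (fun i j => by
        have h4 := hμ1 p (M (i, j) : ℚ)
        rw [map_intCast] at h4
        rw [h4]
        exact_mod_cast padicNorm.of_int (p := p) (M (i, j))) G H'
    rw [hμ1, mul_one] at h3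
    exact h3
  · intro G
    rw [lf_ev, lf_ev, map_eq_zero, map_eq_zero, hy, ev_conj]
    simp
  · intro v G hG
    rw [lf_ev, map_eq_zero] at hG
    show nrm (a v) x G = 0
    unfold nrm
    rw [hG, map_zero, zero_div]
  · intro v G hG
    rw [lf_ev, map_eq_zero] at hG
    show nrm (a v) y G = 0
    unfold nrm
    rw [hG, map_zero, zero_div]
  · intro v G G' κ₁ κ₂ h
    rw [← ha v κ₁, ← ha v κ₂]
    exact nrm_quad (a v) hx φ h
  · intro v G G' κ₁ κ₂ h
    rw [← ha v κ₁, ← ha v κ₂]
    exact nrm_quad (a v) hy0 φ h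
  · intro G hG
    rw [ev_lin]
    have h1 : lf (fun j => φ (x j)) G = 0 := hG
    rw [lf_ev, map_eq_zero] at h1
    exact h1
  · intro v i
    exact ⟨nrm_pos (a v) hx (hev i), nrm_pos (a v) hy0 (hev' i)⟩
  · rw [prox_eq hσ S hS μ hμ3 φ hx _ q hH]
    have h1 : ∀ v : Option S, weil (n := 2) (av φ μ v) (∏ i, lin (n := 2) (H i)) q x +
        weil (n := 2) (av φ μ v) (∏ i, lin (n := 2) (H i)) q (fun j => σ (x j)) =
        ∑ i, (-Real.log (nrm (a v) x (H i)) - Real.log (nrm (a v) y (H i))) := by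
      intro v
      rw [weil_prod (av φ μ v) hx H hev, weil_prod (av φ μ v) hy0 H hev',
        ← Finset.sum_add_distrib]
      rfl
    rw [Finset.sum_congr rfl fun v _ => h1 v]
    linarith

end Pool.Agent.Y734.BR2
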